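import Mathlib
import Pool.Agent.H.MP_76005e_an.B

namespace Pool.Agent.Results.MP_76005e_an.Biorth

open Set Cardinal Finset Function Pool.Agent.H.MP_76005e_an

universe u

section defs
variable (𝕜 : Type) [RCLike 𝕜] (X : Type u) [NormedAddCommGroup X] [NormedSpace 𝕜 X]

/-- `p` is a norm equivalent to the given norm of `X`. -/
def Eqv (p : Seminorm 𝕜 X) : Prop := ∃ a b : ℝ, 0 < a ∧ ∀ v, a * ‖v‖ ≤ p v ∧ p v ≤ b * ‖v‖

/-- `D(X) = ∞`: for every `M` there are equivalent norms `p`, `q` such that every linear bijection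
`T : (X, p) → (X, q)` with `‖T‖ ≤ A` and `‖T⁻¹‖ ≤ B` has `M ≤ A * B`. -/
def DInf : Prop := ∀ M : ℝ, ∃ p q : Seminorm 𝕜 X, Eqv 𝕜 X p ∧ Eqv 𝕜 X q ∧
  ∀ (T : X ≃ₗ[𝕜] X) (A B : ℝ), (∀ v, q (T v) ≤ A * p v) → (∀ v, p v ≤ B * q (T v)) → M ≤ A * B

/-- `N` is a norming subset of the dual unit ball. -/
def Norming (N : Set (X →L[𝕜] 𝕜)) : Prop :=
  (∀ g ∈ N, ‖g‖ ≤ 1) ∧ ∃ c : ℝ, 0 < c ∧ ∀ v : X, v ≠ 0 → ∃ g ∈ N, c * ‖v‖ ≤ ‖g v‖

/-- For every `η > 0` there is an `η`-biorthogonal system indexed by `ι`. -/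
def AlmostBi (ι : Type u) : Prop := ∀ η : ℝ, 0 < η → ∃ (x : ι → X) (f : ι → X →L[𝕜] 𝕜),
  (∀ i, ‖x i‖ ≤ 1 ∧ f i (x i) = 1) ∧ ∀ i j, i ≠ j → ‖f i (x j)‖ ≤ η

end defs

variable {𝕜 : Type} [RCLike 𝕜] {X : Type u} [NormedAddCommGroup X] [NormedSpace 𝕜 X]

open Classical in
theorem reindex {ι : Type u} [Infinite ι] {η C : ℝ} (hη : 0 < η) (x : ι → X) (f : ι → X →L[𝕜] 𝕜)
    (h1 : ∀ i, ‖x i‖ ≤ 1 ∧ ‖f i‖ ≤ C ∧ f i (x i) = 1) (h2 : ∀ i j, i ≠ j → ‖f i (x j)‖ ≤ η) :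
    ∃ (x : ι × ℕ → X) (F : ι × ℕ → X →L[𝕜] 𝕜), (∀ i, ‖x i‖ ≤ 1) ∧ (∀ i, ‖F i‖ ≤ C) ∧
      ∀ i j, ‖F i (x j) - if i = j then 1 else 0‖ ≤ η := by
  obtain ⟨e⟩ : Nonempty (ι × ℕ ≃ ι) := Cardinal.eq.mp (by simp)
  refine ⟨x ∘ e, f ∘ e, fun i => (h1 _).1, fun i => (h1 _).2.1, fun i j => ?_⟩
  split_ifs with h
  · simp [h, (h1 _).2.2, hη.le]
  · simpa using h2 _ _ (e.injective.ne h)

theorem pos_left {a b : ℝ} (h : 0 < a * b) (hb : 0 ≤ b) : 0 < a := by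
  by_contra h'
  exact h.not_ge (mul_nonpos_of_nonpos_of_nonneg (not_lt.mp h') hb)

theorem core1 {ι : Type u} [LinearOrder ι] (hι : ℵ₀ < #ι) (hI : ∀ β : ι, #(Set.Iic β) < #ι)
    (d : ι → X) (hd : DenseRange d) (C : ℝ) (H : ∀ η : ℝ, 0 < η →
      ∃ (x : ι → X) (f : ι → X →L[𝕜] 𝕜), (∀ i, ‖x i‖ ≤ 1 ∧ ‖f i‖ ≤ C ∧ f i (x i) = 1) ∧
        ∀ i j, i ≠ j → ‖f i (x j)‖ ≤ η) : DInf 𝕜 X := by
  classical
  intro M
  have : Infinite ι := aleph0_le_mk_iff.mp hι.le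
  obtain ⟨h, hh⟩ := exists_nat_ge (32 * |M| + 1)
  have h1 : (1 : ℝ) ≤ h := by linarith [abs_nonneg M]
  have h1' : 1 ≤ h := by exact_mod_cast h1
  set m := 2 * h with hm
  set L := 3 * m * (m + 2) with hL
  have hmL : m + 2 ≤ L := Nat.le_mul_of_pos_left _ (by omega)
  have hm0 : (0 : ℝ) < m := by exact_mod_cast (show 0 < m by omega)
  have hL0 : (0 : ℝ) < L := by exact_mod_cast (show 0 < L by omega)
  obtain ⟨x0, f0, hx0, hf0⟩ := H (h * L : ℝ)⁻¹ (by positivity)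
  obtain ⟨x, F, hx, hF, hδ⟩ := reindex (by positivity) x0 f0 hx0 hf0
  obtain ⟨p, hp1, hp2, hp3⟩ := bad x F C _ h L (by omega) (le_of_eq (by field_simp)) hx hF hδ
  obtain ⟨Nf, hN1, hN2, hN3, hN4, hN5⟩ := exists_norming (𝕜 := 𝕜) (X := X)
  have hq : ∀ β : ι, ∃ q : Seminorm 𝕜 X, (∀ g ∈ Nf (d '' Set.Iic β), ∀ v, ‖g v‖ ≤ q v) ∧
      ∀ v b, (∀ g ∈ Nf (d '' Set.Iic β), ‖g v‖ ≤ b) → q v ≤ b := fun β => by
    have := (hN2 (d '' Set.Iic β)).to_subtype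
    obtain ⟨q, a1, a2⟩ := exists_sup (fun g : Nf (d '' Set.Iic β) =>
      (normSeminorm 𝕜 𝕜).comp (g.1 : X →ₗ[𝕜] 𝕜)) 1 fun g v =>
        (g.1.le_opNorm v).trans (mul_le_mul_of_nonneg_right (hN4 _ _ g.2) (norm_nonneg _))
    exact ⟨q, fun g hg v => a1 ⟨g, hg⟩ v, fun v b hb => a2 v b fun g => hb g.1 g.2⟩
  choose q hq1 hq2 using hq
  obtain ⟨N, hN, hNb⟩ := good (fun β => Submodule.span 𝕜 (d '' Set.Iic β)) q
    (fun β v => hq2 _ _ _ fun g hg => (g.le_opNorm v).trans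
      (mul_le_of_le_one_left (norm_nonneg _) (hN4 _ _ hg)))
    (fun β β' e => Submodule.span_mono (image_mono (Set.Iic_subset_Iic.mpr e)))
    (fun β β' e v => hq2 _ _ _ fun g hg =>
      hq1 _ _ (hN1 (image_mono (Set.Iic_subset_Iic.mpr e)) hg) _)
    (fun β v hv => hN5 _ v hv _ fun g hg => hq1 _ _ hg _) m (by omega)
  refine ⟨p, N, ⟨_, _, by positivity, hp1⟩, ⟨_, _, by positivity, hN⟩, fun T A B hA hB => ?_⟩
  have hB0 : 0 < B ∧ 0 < A := by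
    have a1 := (hp3 fun _ => Classical.arbitrary _).trans (hB _)
    have a2 := pos_and_pos_or_neg_and_neg_of_mul_pos (lt_of_lt_of_le (by positivity) a1)
    rcases a2 with a2 | a2
    · exact ⟨a2.1, pos_left (a2.2.trans_le (hA _)) (apply_nonneg _ _)⟩
    · exact absurd a2.2 (apply_nonneg _ _).not_gt
  obtain ⟨hB0, hA0⟩ := hB0
  have hT : ∀ (j : ℕ) (s : Finset ι) (θ : ι → 𝕜), s.card ≤ L → (∀ a, ‖θ a‖ = 1) →
      N (∑ a ∈ s, θ a • T (x (a, j))) ≤ 3 * A := fun j s θ hs hθ => by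
    have := (hA _).trans (mul_le_mul_of_nonneg_left (hp2 j s θ hs hθ) hA0.le)
    simp only [map_sum, map_smul] at this
    linarith
  set ε : ℝ := m * (3 * A) / L with hε
  have hε0 : 0 < ε := by positivity
  have hεA : (m + 2) * ε = A := by
    rw [hε, hL]; push_cast; field_simp
  have step : ∀ (j : ℕ) (S : Set ι), ¬ #S < #ι → ∀ β, ∃ a ∈ S, ∃ β' z, β < a ∧ a ≤ β' ∧
      q β (T (x (a, j))) ≤ ε ∧ z ∈ Submodule.span 𝕜 (d '' Set.Iic β') ∧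
      ‖T (x (a, j)) - z‖ ≤ ε := fun j S hS β => by
    have a1 := small_union hι ((hN3 (d '' Set.Iic β)).trans_lt
      (max_lt hι (mk_image_le.trans_lt (hI β)))) _ fun g hg =>
        fin_big (fun a => T (x (a, j))) L (by omega) (m * (3 * A)) (fun s θ hs hθ => by
          have := ((hN _).1.trans (hT j s θ hs hθ))
          rwa [inv_mul_le_iff₀ hm0] at this) g (hN4 _ _ hg)
    have a2 := (mk_union_le _ _).trans_lt (add_lt_of_lt hι.le (hI β) a1)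
    obtain ⟨a, haS, ha⟩ := Set.not_subset.mp fun h' => hS ((mk_le_mk_of_subset h').trans_lt a2)
    simp only [Set.mem_union, Set.mem_Iic, mem_iUnion, mem_ofPred_eq, not_or, not_le, not_exists,
      not_lt] at ha
    obtain ⟨γ, hγ⟩ := hd.exists_dist_lt (T (x (a, j))) hε0
    exact ⟨a, haS, max a γ, d γ, ha.1, le_max_left _ _, hq2 _ _ _ fun g hg => ha.2 ⟨g, hg⟩,
      Submodule.subset_span ⟨γ, le_max_right _ _, rfl⟩, ((dist_eq_norm _ _).symm.trans_lt hγ).le⟩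
  have blocks : ∀ (jj : ℕ → ℕ) (S : ℕ → Set ι), (∀ k, ¬ #(S k) < #ι) →
      ∃ (a β : ℕ → ι) (z : ℕ → X), StrictMono a ∧ Monotone β ∧ ∀ k, a k ∈ S k ∧
        q (β k) (T (x (a k, jj k))) ≤ ε ∧ z k ∈ Submodule.span 𝕜 (d '' Set.Iic (β (k + 1))) ∧
        ‖T (x (a k, jj k)) - z k‖ ≤ ε := fun jj S hS => by
    choose a ha b z h1 h2 h3 using fun k => step (jj k) (S k) (hS k)
    let β : ℕ → ι := fun k => Nat.rec (Classical.arbitrary _) (fun k β => b k β) k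
    exact ⟨fun k => a k (β k), β, fun k => z k (β k),
      strictMono_nat_of_lt_succ fun k => (h2 k _).trans_lt (h1 (k + 1) _),
      monotone_nat_of_le_succ fun k => (h1 k _).le.trans (h2 k _), fun k => ⟨ha k _, h3 k _⟩⟩
  have s1 : ∀ j, #{a | 15 * A ≤ ‖T (x (a, j))‖} < #ι := fun j => by
    by_contra h'
    obtain ⟨a, β, z, ha, hβ, hk⟩ := blocks (fun _ => j) _ fun _ => h'
    have a1 := (hNb β _ z ε hβ (fun k => (hk k).2.1) (fun k => (hk k).2.2.1)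
      fun k => (hk k).2.2.2).1 _ fun k => (hk k).1
    have a2 := hT j ((range m).image a) (fun _ => 1) (card_image_le.trans (by simp; omega))
      fun _ => norm_one
    rw [sum_image fun _ _ _ _ e => ha.injective e] at a2
    simp only [one_smul] at a2
    linarith
  obtain ⟨a, β, z, -, hβ, hk⟩ := blocks id (fun j => {a | 15 * A ≤ ‖T (x (a, j))‖}ᶜ) fun j h' => by
    have := (mk_union_le _ _).trans_lt (add_lt_of_lt hι.le (s1 j) h')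
    rw [Set.union_compl_self, mk_univ] at this
    exact lt_irrefl _ this
  have a1 := (hNb β _ z ε hβ (fun k => (hk k).2.1) (fun k => (hk k).2.2.1)
    fun k => (hk k).2.2.2).2 (15 * A) h le_rfl fun k => (not_le.mp fun h' => (hk k).1 h').le
  have a2 := (hp3 a).trans (hB _)
  rw [map_sum] at a2
  have a3 : (h : ℝ) * ε ≤ (m + 2) * ε :=
    mul_le_mul_of_nonneg_right (by rw [hm]; push_cast; linarith) hε0.le
  have a4 := mul_le_mul_of_nonneg_left (a1.trans (show _ ≤ 16 * A by linarith)) hB0.le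
  have := le_abs_self M
  simp only [id] at a4
  linarith

theorem core2' {ι : Type u} (hι : ℵ₀ < #ι) {N : Set (X →L[𝕜] 𝕜)} (hN1 : ∀ g ∈ N, ‖g‖ ≤ 1)
    (hc : #N < #ι) {c C M : ℝ} (hc0 : 0 < c) (hN2 : ∀ v : X, v ≠ 0 → ∃ g ∈ N, c * ‖v‖ ≤ ‖g v‖)
    {L : ℕ} (hL2 : 2 ≤ L) (hL : 6 * |M| ≤ L * c) (x0 : ι → X) (f0 : ι → X →L[𝕜] 𝕜)
    (hx0 : ∀ i, ‖x0 i‖ ≤ 1 ∧ ‖f0 i‖ ≤ C ∧ f0 i (x0 i) = 1)
    (hf0 : ∀ i j, i ≠ j → ‖f0 i (x0 j)‖ ≤ (L : ℝ)⁻¹) : ∃ p q : Seminorm 𝕜 X, Eqv 𝕜 X p ∧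
      Eqv 𝕜 X q ∧ ∀ (T : X ≃ₗ[𝕜] X) (A B : ℝ), (∀ v, q (T v) ≤ A * p v) →
        (∀ v, p v ≤ B * q (T v)) → M ≤ A * B := by
  classical
  have : Infinite ι := aleph0_le_mk_iff.mp hι.le
  have hL0 : (0 : ℝ) < L := by exact_mod_cast (show 0 < L by omega)
  obtain ⟨x, F, hx, hF, hδ⟩ := reindex (by positivity) x0 f0 hx0 hf0
  obtain ⟨p, hp1, hp2, hp3⟩ := bad x F C _ 1 L hL2
    (by rw [mul_inv_cancel₀ hL0.ne']; simp) hx hF hδ
  refine ⟨p, normSeminorm 𝕜 X, ⟨_, _, by positivity, hp1⟩, ⟨1, 1, one_pos, by simp⟩,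
    fun T A B hA hB => ?_⟩
  simp only [coe_normSeminorm] at hA hB
  have hp4 : ∀ a, 1 / 2 ≤ B * ‖T (x (a, 0))‖ := fun a => by
    have := (hp3 fun _ => a).trans (hB _)
    rwa [sum_range_one, Nat.cast_one] at this
  have hpos : ∀ a, 0 < B ∧ 0 < ‖T (x (a, 0))‖ := fun a =>
    (pos_and_pos_or_neg_and_neg_of_mul_pos (lt_of_lt_of_le (by positivity) (hp4 a))).resolve_right
      fun h => (norm_nonneg _).not_gt h.2
  have hA0 : 0 < A := pos_left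
    ((hpos (Classical.arbitrary _)).2.trans_le (hA _)) (apply_nonneg _ _)
  have a1 := small_union hι hc _
    fun g hg => fin_big (fun a => T (x (a, 0))) L (by omega) (A * 3) (fun s θ hs hθ => by
      have := (hA _).trans (mul_le_mul_of_nonneg_left (hp2 0 s θ hs hθ) hA0.le)
      simpa only [map_sum, map_smul] using this) g (hN1 _ hg)
  obtain ⟨a, -, ha⟩ := Set.not_subset.mp fun h' : Set.univ ⊆ _ =>
    lt_irrefl _ ((mk_univ.symm.trans_le (mk_le_mk_of_subset h')).trans_lt a1)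
  simp only [mem_iUnion, mem_ofPred_eq, not_exists, not_lt] at ha
  obtain ⟨g, hg, hg'⟩ := hN2 _ (norm_pos_iff.mp (hpos a).2)
  have a2 := hg'.trans (ha ⟨g, hg⟩)
  rw [le_div_iff₀ hL0] at a2
  have a4 := mul_le_mul_of_nonneg_left a2 (hpos a).1.le
  have a5 := mul_le_mul_of_nonneg_left (hp4 a) (show 0 ≤ L * c by positivity)
  have := le_abs_self M
  linarith

theorem level {ι : Type u} {μ : Cardinal.{u}} (h0 : ℵ₀ ≤ μ) (hι : μ < #ι) (w : ι → ℝ) :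
    ∃ (n : ℕ) (S : Set ι), μ < #S ∧ ∀ i ∈ S, w i ≤ n := by
  by_contra h
  have h' : ∀ n : ULift.{u} ℕ, #{i | w i ≤ n.down} ≤ μ := fun n =>
    not_lt.mp fun e => h ⟨n.down, _, e, fun _ hi => hi⟩
  have e : (⋃ n : ULift.{u} ℕ, {i | w i ≤ n.down}) = Set.univ :=
    eq_univ_of_forall fun i => by
      obtain ⟨n, hn⟩ := exists_nat_ge (w i)
      exact mem_iUnion.mpr ⟨⟨n⟩, hn⟩
  have := (mk_iUnion_le fun n : ULift.{u} ℕ => {i | w i ≤ n.down}).trans_lt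
    (mul_lt_of_lt (h0.trans hι.le) ((mk_le_aleph0.trans h0).trans_lt hι)
      ((ciSup_le' h').trans_lt hι))
  rw [e, mk_univ] at this
  exact lt_irrefl _ this

theorem core2 {ι : Type u} (hι : ℵ₀ < #ι) {N : Set (X →L[𝕜] 𝕜)} (hN : Norming 𝕜 X N)
    (hc : #N < #ι) (H : AlmostBi 𝕜 X ι) : DInf 𝕜 X := by
  intro M
  obtain ⟨hN1, c, hc0, hN2⟩ := hN
  obtain ⟨L, hL⟩ := exists_nat_ge (6 * |M| / c + 2)
  have h0 : 0 ≤ 6 * |M| / c := by positivity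
  have hL2 : (2 : ℝ) ≤ L := by linarith
  have hL3 : 6 * |M| ≤ L * c := by rw [← div_le_iff₀ hc0]; linarith
  obtain ⟨x0, f0, hx0, hf0⟩ := H (L : ℝ)⁻¹ (by positivity)
  obtain ⟨n, S, hn, hS⟩ := level (le_max_left _ _) (max_lt hι hc) fun i => ‖f0 i‖
  exact core2' (ι := S) (C := n) (L := L) ((le_max_left _ _).trans_lt hn) hN1
    ((le_max_right _ _).trans_lt hn) hc0 hN2 (by exact_mod_cast hL2) hL3
    (fun i => x0 i.1) (fun i => f0 i.1) (fun i => ⟨(hx0 i.1).1, hS _ i.2, (hx0 i.1).2⟩)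
    fun i j e => hf0 _ _ (Subtype.val_injective.ne e)

theorem build {ι : Type u} [LinearOrder ι] [WellFoundedLT ι] (hι : ℵ₀ < #ι)
    (hI : ∀ β : ι, #(Set.Iio β) < #ι) (hN : ∀ N, Norming 𝕜 X N → #ι ≤ #N) (η : ℝ) (hη : 0 < η) :
    ∃ (x : ι → X) (f : ι → X →L[𝕜] 𝕜), (∀ i, ‖x i‖ ≤ 1 ∧ ‖f i‖ ≤ 4 ∧ f i (x i) = 1) ∧
      ∀ i j, i ≠ j → ‖f i (x j)‖ ≤ η := by
  obtain ⟨Nf, -, -, hN3, hN4, hN5⟩ := exists_norming (𝕜 := 𝕜) (X := X)
  have step : ∀ (β : ι) (r : ∀ γ, γ < β → X × (X →L[𝕜] 𝕜)), ∃ s : X × (X →L[𝕜] 𝕜),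
      (‖s.1‖ ≤ 1 ∧ ‖s.2‖ ≤ 4 ∧ s.2 s.1 = 1) ∧
      ∀ γ hγ, s.2 (r γ hγ).1 = 0 ∧ (‖(r γ hγ).2‖ ≤ 4 → ‖(r γ hγ).2 s.1‖ ≤ η) := by
    intro β r
    let S : Set X := Set.range fun γ : Set.Iio β => (r γ.1 γ.2).1
    let N : Set (X →L[𝕜] 𝕜) := Nf S ∪
      (Set.range fun γ : Set.Iio β => (4⁻¹ : 𝕜) • (r γ.1 γ.2).2) ∩ {g | ‖g‖ ≤ 1}
    have hNc : #N < #ι := (mk_union_le _ _).trans_lt (add_lt_of_lt hι.le
      ((hN3 S).trans_lt (max_lt hι (mk_range_le.trans_lt (hI β))))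
      ((mk_le_mk_of_subset Set.inter_subset_left).trans_lt (mk_range_le.trans_lt (hI β))))
    obtain ⟨v, hv⟩ : ∃ v : X, ‖v‖ = 1 ∧ ∀ g ∈ N, ‖g v‖ ≤ min (η / 4) (1 / 2) := by
      by_contra h
      push Not at h
      refine hNc.not_ge (hN N ⟨fun g hg => hg.elim (hN4 _ _) fun h => h.2,
        min (η / 4) (1 / 2), by positivity, fun v hv => ?_⟩)
      have hv' := norm_pos_iff.mpr hv
      obtain ⟨g, hg, h'⟩ := h ((‖v‖⁻¹ : 𝕜) • v) (by simp [norm_smul, hv'.ne'])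
      refine ⟨g, hg, ?_⟩
      rw [map_smul, norm_smul, norm_inv, RCLike.norm_ofReal, abs_norm, lt_inv_mul_iff₀ hv'] at h'
      linarith
    let Z := Submodule.span 𝕜 S
    have hZ : 1 / 4 ≤ ‖(Submodule.Quotient.mk v : X ⧸ Z)‖ := by
      refine le_of_forall_pos_le_add fun ε hε => ?_
      obtain ⟨w, hw, hw'⟩ := Submodule.Quotient.norm_mk_lt (Submodule.Quotient.mk v : X ⧸ Z) hε
      have a1 := hN5 S _ ((Submodule.Quotient.eq Z).mp hw.symm) (1 / 2 + ‖w‖) fun g hg => by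
        rw [map_sub]
        exact (norm_sub_le _ _).trans (add_le_add ((hv.2 g (Or.inl hg)).trans (min_le_right _ _))
          ((g.le_opNorm _).trans (mul_le_of_le_one_left (norm_nonneg _) (hN4 _ _ hg))))
      have a2 := norm_add_le (v - w) w
      rw [sub_add_cancel, hv.1] at a2
      linarith
    obtain ⟨g, hg1, hg2⟩ := exists_dual_vector'' 𝕜 (Submodule.Quotient.mk v : X ⧸ Z)
    have h0 : 0 < ‖(Submodule.Quotient.mk v : X ⧸ Z)‖ := lt_of_lt_of_le (by norm_num) hZ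
    have ev : ∀ (a : 𝕜) w, (a • g.comp Z.mkQL) w = a * g (Submodule.Quotient.mk w) :=
      fun _ _ => rfl
    refine ⟨(v, ((‖(Submodule.Quotient.mk v : X ⧸ Z)‖ : 𝕜))⁻¹ • g.comp Z.mkQL),
      ⟨hv.1.le, ContinuousLinearMap.opNorm_le_bound _ (by norm_num) fun w => ?_, ?_⟩,
      fun γ hγ => ⟨?_, fun h4 => ?_⟩⟩
    · have a1 := ((g.le_opNorm _).trans (mul_le_of_le_one_left (norm_nonneg _) hg1)).trans
        (Submodule.Quotient.norm_mk_le Z w)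
      rw [ev, norm_mul, norm_inv, RCLike.norm_ofReal, abs_norm, inv_mul_le_iff₀ h0]
      nlinarith [norm_nonneg w]
    · rw [ev, hg2, inv_mul_cancel₀ (by exact_mod_cast h0.ne')]
    · rw [ev, (Submodule.Quotient.mk_eq_zero Z).mpr (Submodule.subset_span ⟨⟨γ, hγ⟩, rfl⟩), map_zero,
        mul_zero]
    · have a1 := (hv.2 ((4⁻¹ : 𝕜) • (r γ hγ).2) (Or.inr ⟨⟨⟨γ, hγ⟩, rfl⟩, by
        change ‖_‖ ≤ _
        rw [norm_smul, norm_inv, RCLike.norm_ofNat]; linarith⟩)).trans (min_le_left _ _)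
      rw [smul_apply, norm_smul, norm_inv, RCLike.norm_ofNat] at a1
      linarith
  choose c c1 c2 using step
  have e := (wellFounded_lt (α := ι)).fix_eq c
  have h1 := fun i => (e i).symm ▸ c1 i fun γ _ => (wellFounded_lt (α := ι)).fix c γ
  have h2 := fun i j (h : j < i) => (e i).symm ▸ c2 i
    (fun γ _ => (wellFounded_lt (α := ι)).fix c γ) j h
  refine ⟨fun i => ((wellFounded_lt (α := ι)).fix c i).1,
    fun i => ((wellFounded_lt (α := ι)).fix c i).2, h1, fun i j hij => ?_⟩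
  rcases lt_or_gt_of_ne hij with h | h
  · exact (h2 j i h).2 (h1 i).2.1
  · rw [(h2 i j h).1, norm_zero]; exact hη.le

theorem result (𝕜 : Type) [RCLike 𝕜] (X : Type u) [NormedAddCommGroup X] [NormedSpace 𝕜 X]
    (ι : Type u) [Uncountable ι] :
    ((∃ d : ι → X, DenseRange d) → (∀ N, Norming 𝕜 X N → #ι ≤ #N) → DInf 𝕜 X) ∧
    (AlmostBi 𝕜 X ι → (∃ N, Norming 𝕜 X N ∧ #N < #ι) → DInf 𝕜 X) ∧
    (AlmostBi 𝕜 X ι → (∃ d : ι → X, DenseRange d) → DInf 𝕜 X) := by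
  have hι : ℵ₀ < #ι := aleph0_lt_mk_iff.mpr inferInstance
  have h1 : (∃ d : ι → X, DenseRange d) → (∀ N, Norming 𝕜 X N → #ι ≤ #N) → DInf 𝕜 X := by
    rintro ⟨d, hd⟩ hN
    classical
    obtain ⟨r, wo, hr⟩ := Cardinal.exists_ord_eq ι
    let _ := linearOrderOfSTO r
    have : WellFoundedLT ι := ⟨wo.wf⟩
    have hI : ∀ β : ι, #(Set.Iio β) < #ι := fun β => card_typein_lt β hr
    refine core1 hι (fun β => ?_) d hd 4 (build hι hI hN)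
    rw [← Set.Iio_insert]
    exact mk_insert_le.trans_lt (add_lt_of_lt hι.le (hI β) (one_lt_aleph0.trans hι))
  refine ⟨h1, fun H ⟨N, hN, hc⟩ => core2 hι hN hc H, fun H hd => ?_⟩
  by_cases h : ∃ N, Norming 𝕜 X N ∧ #N < #ι
  · obtain ⟨N, hN, hc⟩ := h
    exact core2 hι hN hc H
  · push Not at h
    exact h1 hd h

end Pool.Agent.Results.MP_76005e_an.Biorth
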